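import Pool.Agent.H110R3.Urn.Stmts

set_option autoImplicit false

/-! Task L3 of project H110-URN. -/

namespace Pool.Agent.H224R3.Urn

open MeasureTheory Filter Topology Pool.Agent.H110R3.Urn

theorem taskL3 : TaskL3 := by
  intro g S N C hS hN hC hg hsum hstep
  have hpos : ∀ n : ℕ, 0 < S + n * N := fun n => by positivity
  -- the squares of the reciprocals are summable
  have hsq : Summable fun n : ℕ => (C / (S + n * N)) ^ 2 := by
    have h1 : Summable fun n : ℕ => (1 : ℝ) / ((n : ℝ) + 1) ^ 2 := by
      have := (summable_nat_add_iff 1).2 (Real.summable_one_div_nat_pow.2 (by norm_num : 1 < 2))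
      simpa using this
    have hc : 0 < min S N := lt_min hS hN
    refine Summable.of_nonneg_of_le (fun n => by positivity) (fun n => ?_)
      (h1.mul_left ((C / min S N) ^ 2))
    have h2 : min S N * ((n : ℝ) + 1) ≤ S + n * N := by
      have h3 : min S N ≤ S := min_le_left _ _
      have h4 : (n : ℝ) * min S N ≤ n * N := by gcongr; exact min_le_right _ _
      linarith
    have h5 : C / (S + n * N) ≤ C / (min S N * ((n : ℝ) + 1)) := by gcongr
    calc (C / (S + n * N)) ^ 2 ≤ (C / (min S N * ((n : ℝ) + 1))) ^ 2 := by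
          have := hpos n
          gcongr
      _ = (C / min S N) ^ 2 * (1 / ((n : ℝ) + 1) ^ 2) := by
          field_simp
  -- increments of the squares
  have hinc : Summable fun n : ℕ => dist ((g n) ^ 2) ((g (n + 1)) ^ 2) := by
    refine Summable.of_nonneg_of_le (fun n => dist_nonneg) (fun n => ?_)
      ((hsum.mul_left (2 * C)).add hsq)
    have h1 := hstep n
    have h2 : 0 < C / (S + n * N) := div_pos hC (hpos n)
    rw [Real.dist_eq, abs_sub_comm]
    have h3 : (g (n + 1)) ^ 2 - (g n) ^ 2 = (g (n + 1) - g n) * (2 * g n + (g (n + 1) - g n)) := by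
      ring
    rw [h3, abs_mul]
    have h4 : |2 * g n + (g (n + 1) - g n)| ≤ 2 * g n + C / (S + n * N) := by
      refine (abs_add_le _ _).trans ?_
      rw [abs_of_nonneg (by linarith [hg n] : 0 ≤ 2 * g n)]
      linarith
    calc |g (n + 1) - g n| * |2 * g n + (g (n + 1) - g n)| ≤
        C / (S + n * N) * (2 * g n + C / (S + n * N)) := by gcongr
      _ = 2 * C * (g n / (S + n * N)) + (C / (S + n * N)) ^ 2 := by ring
  obtain ⟨L, hL⟩ := cauchySeq_tendsto_of_complete (cauchySeq_of_summable_dist hinc)
  have hL0 : 0 ≤ L := ge_of_tendsto' hL fun n => sq_nonneg _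
  have hLz : L = 0 := by
    by_contra hne
    have hLpos : 0 < L := lt_of_le_of_ne hL0 (Ne.symm hne)
    have hev : ∀ᶠ n in atTop, √(L / 2) ≤ g n := by
      filter_upwards [hL.eventually (lt_mem_nhds (by linarith : L / 2 < L))] with n hn
      rw [← Real.sqrt_sq (hg n)]
      exact Real.sqrt_le_sqrt hn.le
    have hs0 : 0 < √(L / 2) := Real.sqrt_pos.2 (by linarith)
    have hns : ¬ Summable fun n : ℕ => (1 : ℝ) / ((n : ℝ) + 1) := by
      intro h
      apply Real.not_summable_one_div_natCast
      rw [← summable_nat_add_iff 1]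
      simpa using h
    apply hns
    have hSN : 0 < S + N := by linarith
    have h2 : Summable fun n : ℕ => (S + N) / √(L / 2) * (g n / (S + n * N)) := hsum.mul_left _
    refine Summable.of_norm_bounded_eventually_nat h2 ?_
    filter_upwards [hev] with n hn
    rw [Real.norm_eq_abs, abs_of_pos (by positivity)]
    have h3 : S + n * N ≤ (S + N) * ((n : ℝ) + 1) := by
      have : 0 ≤ (n : ℝ) * S := by positivity
      nlinarith
    have h4 := hpos n
    have h5 := hg n
    calc (1 : ℝ) / ((n : ℝ) + 1) = (S + N) / √(L / 2) * (√(L / 2) / ((S + N) * ((n : ℝ) + 1))) := by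
          field_simp
      _ ≤ (S + N) / √(L / 2) * (g n / (S + n * N)) := by gcongr
  have h5 : Tendsto (fun n => √((g n) ^ 2)) atTop (𝓝 √0) := by
    rw [hLz] at hL
    exact (Real.continuous_sqrt.tendsto 0).comp hL
  rw [Real.sqrt_zero] at h5
  refine h5.congr fun n => ?_
  exact Real.sqrt_sq (hg n)

end Pool.Agent.H224R3.Urn
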